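import Pool.Agent.Helper82.DG.Lay
import Pool.Agent.Helper18.RAC.Local3
import Pool.Agent.Helper18.RAC.CoreDraw

/-!
# Definitions of part 3: rectangles of dark vertices, the layout of the whole graph
-/

set_option autoImplicit false

namespace Pool.Agent.Helper82.DG

open Pool.Agent.Helper18.RAC Complex

variable {V : Type*}

/-- affine coordinates of the plane -/
structure Fr (X Y : ℂ → ℝ) : Prop where
  cX : Continuous X
  cY : Continuous Y
  aX : ∀ (z z' : ℂ) (t : ℝ), X ((1 - t) • z + t • z') = (1 - t) * X z + t * X z'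
  aY : ∀ (z z' : ℂ) (t : ℝ), Y ((1 - t) • z + t • z') = (1 - t) * Y z + t * Y z'
  inj : ∀ z z', X z = X z' → Y z = Y z' → z = z'

/-- the corners of a grid -/
def Cor (κ : GX → V) (y : V) : Prop :=
  y = κ (.X false) ∨ y = κ (.X true) ∨ y = κ (.Y false) ∨ y = κ (.Y true)

/-- hubs and common neighbours of the hubs -/
def CoreH (H : SimpleGraph V) (a b y : V) : Prop := y = a ∨ y = b ∨ (H.Adj y a ∧ H.Adj y b)

/-- the rectangles of the dark vertices of a grid -/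
structure Rects (H : SimpleGraph V) (f : V → ℂ) (a b : V) (κ : GX → V) (M : ℕ)
    (ρ : ℕ → ℕ → Set ℂ) : Prop where
  op : ∀ c r, IsOpen (ρ c r)
  cv : ∀ c r, Convex ℝ (ρ c r)
  dj : ∀ c r c' r', c + 1 < M → r + 1 < M → c' + 1 < M → r' + 1 < M → (c ≠ c' ∨ r ≠ r') →
    Disjoint (ρ c r) (ρ c' r')
  mem : ∀ c r, c + 1 < M → r + 1 < M → f (κ (.v (.D c r))) ∈ ρ c r
  nbr : ∀ c r v, 1 ≤ c → c + 2 < M → 1 ≤ r → r + 2 < M → H.Adj (κ (.v (.D c r))) v →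
    v = κ (.v (.D (c + 1) r)) ∨ v = κ (.v (.D (c - 1) r)) ∨ v = κ (.v (.D c (r + 1))) ∨
      v = κ (.v (.D c (r - 1))) ∨ f v ∈ ρ c r
  fr : ∀ c r z, c + 1 < M → r + 1 < M → z ∈ frontier (ρ c r) → ∃ σ k, k < M ∧
    z ∈ openSegment ℝ (f (κ (.v (.U σ k)))) (f (κ (.v (.P σ (2 * k)))))
  thr : ∀ c r p p' y z, c + 1 < M → r + 1 < M → H.Adj p p' → z ∈ segment ℝ (f p) (f p') →
    z ∈ ρ c r → H.Adj p y → CoreH H a b y → Cor κ y

/-- the layout of the graph: hubs `a`, `b`, the path `p 0, …, p (m - 1)` and `K` grids of order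
`M`; the grid `i` is attached to the kite with the path vertices `p i`, `p (i + 1)`, `p (i + 2)` -/
structure LayD (a b : V) (p : ℕ → V) (κ : ℕ → GX → V) (m K M : ℕ) : Prop where
  ab : a ≠ b
  pa : ∀ j < m, p j ≠ a
  pb : ∀ j < m, p j ≠ b
  pinj : ∀ i < m, ∀ j < m, p i = p j → i = j
  hm : K + 2 ≤ m
  hM : 5 ≤ M
  kN : ∀ i < K, κ i (.X false) = if i % 2 = 0 then b else a
  kE : ∀ i < K, κ i (.X true) = p (i + 2)
  kW : ∀ i < K, κ i (.Y true) = p i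
  kS : ∀ i < K, κ i (.Y false) = p (i + 1)
  nc : ∀ i < K, ∀ x : GN, x.ok M →
    κ i (.v x) ≠ a ∧ κ i (.v x) ≠ b ∧ ∀ j < m, κ i (.v x) ≠ p j
  kinj : ∀ i < K, ∀ i' < K, ∀ x y : GN, x.ok M → y.ok M → κ i (.v x) = κ i' (.v y) →
    i = i' ∧ x = y
  cov : ∀ v, v = a ∨ v = b ∨ (∃ j < m, v = p j) ∨ ∃ i < K, ∃ x : GN, x.ok M ∧ v = κ i (.v x)

/-- the graph with the first `t` grids -/
def GDt (a b : V) (p : ℕ → V) (κ : ℕ → GX → V) (m M t : ℕ) : SimpleGraph V :=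
  SimpleGraph.fromEdgeSet (coreE a b p m ∪ {e | ∃ i < t, e ∈ gridE (κ i) M})

end Pool.Agent.Helper82.DG
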