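import Pool.Agent.Helper82.DG.Part3
import Pool.Agent.Helper49.DG.Rects
import Pool.Agent.Helper18.DG.Win2
import Pool.Agent.Helper84.DG.Win

/-!
# Good kites
-/

set_option autoImplicit false

namespace Pool.Agent.Helper82.DG

open Pool.Agent.Helper18.RAC Complex

variable {V : Type*}

/-- as `Nm.windows`, with the information that the drawing is not changed or conjugated -/
theorem windows {H : SimpleGraph V} {f : V → ℂ} {a b : V} {p : ℕ → V} {m : ℕ}
    (h : Nm H f a b) (hc : Core H a b p m) : ∃ B : Finset ℕ, B.card ≤ 10 ∧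
    ∀ i L, 4 ≤ L → i + L < m → (∀ j, i ≤ j → j ≤ i + L → j ∉ B) →
      ∃ g : V → ℂ, (g = f ∨ g = fun v => (starRingEnd ℂ) (f v)) ∧ Nm H g a b ∧
        (∀ j, i ≤ j → j ≤ i + L → 0 < (g (p j)).im) ∧
        ((∀ j, i ≤ j → j < i + L → Nest (g (p j)) (g (p (j + 1)))) ∨
          (∀ j, i ≤ j → j < i + L → Nest (g (p (j + 1))) (g (p j)))) := by
  classical
  refine ⟨BdU f p m ∪ BdU (fun v => (starRingEnd ℂ) (f v)) p m, ?_, ?_⟩
  · refine (Finset.card_union_le _ _).trans ?_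
    have h1 : (BdU f p m).card ≤ 5 := Abs.card_Bd (h.good hc)
    have h2 : (BdU (fun v => (starRingEnd ℂ) (f v)) p m).card ≤ 5 := Abs.card_Bd (h.conj.good hc)
    omega
  · intro i L hL him hB
    have hne := h.im_ne (hc.ha i (by omega)) (hc.hb i (by omega))
    rcases lt_or_gt_of_ne hne with h1 | h1
    · have hB' : ∀ j, i ≤ j → j ≤ i + L → j ∉ BdU (fun v => (starRingEnd ℂ) (f v)) p m :=
        fun j h2 h3 h4 => hB j h2 h3 (Finset.mem_union_right _ h4)
      have hi : i ∈ Ups (fun v => (starRingEnd ℂ) (f v)) p m :=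
        mem_Ups.2 ⟨by omega, by simpa using h1⟩
      have hall := h.conj.up_all hc him hi hB'
      have hall' : ∀ j, i ≤ j → j ≤ i + L → j ∈ Ups (fun v => (starRingEnd ℂ) (f v)) p m := by
        intro j h2 h3
        obtain ⟨n, rfl⟩ := Nat.exists_eq_add_of_le h2
        exact hall n (by omega)
      exact ⟨_, Or.inr rfl, h.conj, fun j h2 h3 => (mem_Ups.1 (hall' j h2 h3)).2,
        h.conj.mono hc hL him hall' hB'⟩
    · have hB' : ∀ j, i ≤ j → j ≤ i + L → j ∉ BdU f p m :=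
        fun j h2 h3 h4 => hB j h2 h3 (Finset.mem_union_left _ h4)
      have hi : i ∈ Ups f p m := mem_Ups.2 ⟨by omega, h1⟩
      have hall := h.up_all hc him hi hB'
      have hall' : ∀ j, i ≤ j → j ≤ i + L → j ∈ Ups f p m := by
        intro j h2 h3
        obtain ⟨n, rfl⟩ := Nat.exists_eq_add_of_le h2
        exact hall n (by omega)
      exact ⟨_, Or.inl rfl, h, fun j h2 h3 => (mem_Ups.1 (hall' j h2 h3)).2,
        h.mono hc hL him hall' hB'⟩

section

variable {a b : V} {p : ℕ → V} {κ : ℕ → GX → V} {m K M : ℕ}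

theorem LayD.code_ne (hl : LayD a b p κ m K M) {c : Code} (hc : c.valid m) :
    (c.ends a b p).1 ≠ (c.ends a b p).2 := by
  cases c with
  | ab => exact hl.ab
  | A j => exact (hl.pa j hc).symm
  | B j => exact (hl.pb j hc).symm
  | I i j =>
    intro h1
    have h2 := hl.pinj i (hc.1.trans hc.2.2) j hc.2.2 h1
    have h3 := hc.1
    omega

theorem LayD.code_adj (hl : LayD a b p κ m K M) {c : Code} (hc : c.valid m) {t : ℕ} :
    (GDt a b p κ m M t).Adj (c.ends a b p).1 (c.ends a b p).2 := by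
  unfold GDt
  rw [SimpleGraph.fromEdgeSet_adj]
  exact ⟨Or.inl ⟨c, hc, rfl⟩, hl.code_ne hc⟩

theorem LayD.core' (hl : LayD a b p κ m K M) : Core (GDt a b p κ m M K) a b p m where
  ha := fun i hi => hl.code_adj (c := .A i) hi
  hb := fun i hi => hl.code_adj (c := .B i) hi
  inj := hl.pinj
  h1 := fun i hi => hl.code_adj (c := .I i (i + 1)) ⟨by omega, by omega, hi⟩
  h2 := fun i hi => hl.code_adj (c := .I i (i + 2)) ⟨by omega, by omega, hi⟩

theorem LayD.nX (hl : LayD a b p κ m K M) {i : ℕ} (hi : i < K) {x : GN} (hx : x.ok M)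
    (σ : Bool) : κ i (.v x) ≠ κ i (.X σ) := by
  have hm := hl.hm
  obtain ⟨h1, h2, h3⟩ := hl.nc i hi x hx
  cases σ
  · rw [hl.kN i hi]
    split_ifs
    · exact h2
    · exact h1
  · rw [hl.kE i hi]
    exact h3 _ (by omega)

theorem LayD.nY (hl : LayD a b p κ m K M) {i : ℕ} (hi : i < K) {x : GN} (hx : x.ok M)
    (σ : Bool) : κ i (.v x) ≠ κ i (.Y σ) := by
  have hm := hl.hm
  obtain ⟨h1, h2, h3⟩ := hl.nc i hi x hx
  cases σ
  · rw [hl.kS i hi]
    exact h3 _ (by omega)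
  · rw [hl.kW i hi]
    exact h3 _ (by omega)

/-- the names of the ends of a valid code are used -/
theorem GE.ends_ok {M : ℕ} (hM : 1 ≤ M) {c : GE} (hc : c.valid M) :
    (c.ends M).1.ok M ∧ (c.ends M).2.ok M := by
  cases c with
  | yp σ j => exact ⟨trivial, hc⟩
  | xu σ c => exact ⟨trivial, hc⟩
  | xp σ => exact ⟨trivial, show 2 * M - 1 < 2 * M by omega⟩
  | up σ c =>
    have hc' : c < M := hc
    exact ⟨hc, show 2 * c < 2 * M by omega⟩
  | pd σ c =>
    have hc' : c < M := hc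
    refine ⟨show 2 * c + 1 < 2 * M by omega, ?_⟩
    cases σ
    · exact (⟨hc', by omega⟩ : c < M ∧ 0 < M)
    · exact (⟨by omega, hc'⟩ : 0 < M ∧ c < M)
  | dd σ c r =>
    have hc' : c < M ∧ r + 1 < M := hc
    cases σ
    · exact ⟨(⟨hc'.1, by omega⟩ : c < M ∧ r < M), (⟨hc'.1, hc'.2⟩ : c < M ∧ r + 1 < M)⟩
    · exact ⟨(⟨by omega, hc'.1⟩ : r < M ∧ c < M), (⟨hc'.2, hc'.1⟩ : r + 1 < M ∧ c < M)⟩
  | pp σ j =>
    have hc' : j + 1 < 2 * M := hc
    exact ⟨show j < 2 * M by omega, hc'⟩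
  | pc σ j ε =>
    have hc' : j + 1 < 2 * M := hc
    exact ⟨show j < 2 * M by omega, hc'⟩
  | pc' σ j ε => exact ⟨hc, hc⟩
  | cc σ j => exact ⟨hc, hc⟩
  | uu => exact ⟨show M - 1 < M by omega, show M - 1 < M by omega⟩
  | uq σ => exact ⟨show M - 1 < M by omega, trivial⟩
  | ud σ => exact ⟨show M - 1 < M by omega, show M - 1 < M ∧ M - 1 < M by omega⟩
  | qd => exact ⟨trivial, show M - 1 < M ∧ M - 1 < M by omega⟩

/-- the second end of a code is the name of a vertex of the grid, different from the first end -/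
theorem GE.ends_ne {M : ℕ} {c : GE} : (c.ends M).1 ≠ (c.ends M).2 ∧
    ∃ x, (c.ends M).2 = .v x := by
  cases c with
  | pd σ c => cases σ <;> exact ⟨by simp [GE.ends, GN.D'], _, rfl⟩
  | dd σ c r => cases σ <;> exact ⟨by simp [GE.ends, GN.D'], _, rfl⟩
  | _ => exact ⟨by simp [GE.ends], _, rfl⟩

theorem LayD.grid_ne (hl : LayD a b p κ m K M) {i : ℕ} (hi : i < K) {c : GE} (hc : c.valid M) :
    κ i (c.ends M).1 ≠ κ i (c.ends M).2 := by
  have hM := hl.hM
  obtain ⟨h1, h2⟩ := GE.ends_ok (by omega) hc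
  obtain ⟨h3, y, hy⟩ := GE.ends_ne (M := M) (c := c)
  rw [hy] at h2 h3 ⊢
  rcases hx : (c.ends M).1 with σ | σ | x
  · exact (hl.nX hi h2 σ).symm
  · exact (hl.nY hi h2 σ).symm
  · rw [hx] at h1 h3
    intro h4
    exact h3 (by rw [(hl.kinj i hi i hi x y h1 h2 h4).2])

theorem LayD.grid_adj (hl : LayD a b p κ m K M) {i t : ℕ} (hi : i < K) (hit : i < t) {c : GE}
    (hc : c.valid M) : (GDt a b p κ m M t).Adj (κ i (c.ends M).1) (κ i (c.ends M).2) := by
  unfold GDt
  rw [SimpleGraph.fromEdgeSet_adj]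
  exact ⟨Or.inr ⟨i, hit, c, hc, rfl⟩, hl.grid_ne hi hc⟩

theorem LayD.grid' (hl : LayD a b p κ m K M) : ∀ i < K, HasGrid (GDt a b p κ m M K) (κ i) M :=
  fun i hi =>
  { hM := hl.hM
    adj := fun _ hc => hl.grid_adj hi hi hc
    inj := fun x y hx hy h => (hl.kinj i hi i hi x y hx hy h).2
    nX := fun _ σ hx => hl.nX hi hx σ
    nY := fun _ σ hx => hl.nY hi hx σ }

theorem good_aux (hl : LayD a b p κ m K M) {H : SimpleGraph V} (hle : GDt a b p κ m M K ≤ H)
    {f : V → ℂ} (h : Nm H f a b) {i : ℕ} (hi : 19 ≤ i) (hiK : i + 20 ≤ K) {ε : ℤ}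
    (hε : ε = 1 ∨ ε = -1) (him : ∀ j, i ≤ j + 19 → j ≤ i + 21 → 0 < (f (p j)).im)
    (hn : ∀ s : ℤ, -20 ≤ s → s ≤ 19 → Nest (f (p ((i : ℤ) + 1 + ε * s).toNat))
      (f (p ((i : ℤ) + 1 + ε * (s + 1)).toNat))) :
    ∃ ρ, Rects H f a b (κ i) M ρ := by
  have hm := hl.hm
  have hcore := hl.core'
  set w : ℤ → V := fun s => p ((i : ℤ) + 1 + ε * s).toNat with hw
  -- indices
  have hidx : ∀ s : ℤ, -20 ≤ s → s ≤ 20 → ((i : ℤ) + 1 + ε * s).toNat < m ∧
      i ≤ ((i : ℤ) + 1 + ε * s).toNat + 19 ∧ ((i : ℤ) + 1 + ε * s).toNat ≤ i + 21 := by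
    intro s e1 e2
    rcases hε with rfl | rfl <;> omega
  have hG1 : ∀ s : ℤ, -20 ≤ s → s ≤ 19 → H.Adj (w s) (w (s + 1)) := by
    intro s e1 e2
    simp only [hw]
    rcases hε with rfl | rfl
    · have e3 : ((i : ℤ) + 1 + 1 * (s + 1)).toNat = ((i : ℤ) + 1 + 1 * s).toNat + 1 := by omega
      rw [e3]
      exact hle (hcore.h1 _ (by omega))
    · have e3 : ((i : ℤ) + 1 + -1 * s).toNat = ((i : ℤ) + 1 + -1 * (s + 1)).toNat + 1 := by omega
      rw [e3]
      exact (hle (hcore.h1 _ (by omega))).symm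
  have hG2 : ∀ s : ℤ, -20 ≤ s → s ≤ 18 → H.Adj (w s) (w (s + 2)) := by
    intro s e1 e2
    simp only [hw]
    rcases hε with rfl | rfl
    · have e3 : ((i : ℤ) + 1 + 1 * (s + 2)).toNat = ((i : ℤ) + 1 + 1 * s).toNat + 2 := by omega
      rw [e3]
      exact hle (hcore.h2 _ (by omega))
    · have e3 : ((i : ℤ) + 1 + -1 * s).toNat = ((i : ℤ) + 1 + -1 * (s + 2)).toNat + 2 := by omega
      rw [e3]
      exact (hle (hcore.h2 _ (by omega))).symm
  obtain ⟨q, hwin⟩ := h.winR (w := w) (R := 20)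
    (fun s e1 e2 => him _ (hidx s e1 e2).2.1 (hidx s e1 e2).2.2)
    (fun s e1 e2 => (hle (hcore.ha _ (hidx s e1 e2).1)).symm)
    (fun s e1 e2 => (hle (hcore.hb _ (hidx s e1 e2).1)).symm)
    (fun s e1 e2 => hn s e1 (by omega))
    (fun s e1 e2 => hG1 s e1 (by omega))
    (fun s e1 e2 => by
      have := hG2 (s - 1) (by omega) (by omega)
      have e3 : s - 1 + 2 = s + 1 := by ring
      rwa [e3] at this)
  have hgrid := (hl.grid' i (by omega)).mono hle
  have hE : κ i (.X true) = w ε := by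
    rw [hl.kE i (by omega)]
    simp only [hw]
    congr 1
    rcases hε with rfl | rfl <;> omega
  have hW : κ i (.Y true) = w (-ε) := by
    rw [hl.kW i (by omega)]
    simp only [hw]
    congr 1
    rcases hε with rfl | rfl <;> omega
  have hS : κ i (.Y false) = w 0 := by
    rw [hl.kS i (by omega)]
    simp only [hw]
    congr 1
    omega
  have hF := frame_of_win hwin hgrid hε hE hW hS
    (by
      rw [hl.kN i (by omega)]
      split_ifs
      · exact Or.inr rfl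
      · exact Or.inl rfl)
    (by
      intro s s' h1 h2 h3 h4 heq
      have k1 := hidx s h1 h2
      have k2 := hidx s' h3 h4
      have := hl.pinj _ k1.1 _ k2.1 heq
      rcases hε with rfl | rfl <;> omega)
    (by
      intro x hx
      obtain ⟨h1, h2, h3⟩ := hl.nc i (by omega) x hx
      exact ⟨h1, h2, fun s e1 e2 => h3 _ (hidx s e1 e2).1⟩)
  obtain ⟨X, Y, E, F, a', b', hfr, hgd, hco⟩ := gdraw_of_frame hwin hgrid hε hE hW hS hF
  exact gdraw_rects h.rac hfr hgd hco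

theorem good_rects' (hl : LayD a b p κ m K M) {H : SimpleGraph V}
    (hle : GDt a b p κ m M K ≤ H) {g : V → ℂ} (hg : Nm H g a b) :
    ∃ B : Finset ℕ, B.card ≤ 10 ∧ ∀ i, 19 ≤ i → i + 20 ≤ K →
      (∀ j, i ≤ j + 19 → j ≤ i + 21 → j ∉ B) → ∃ ρ, Rects H g a b (κ i) M ρ := by
  have hm := hl.hm
  have hcore : Core H a b p m :=
    ⟨fun i hi => hle (hl.core'.ha i hi), fun i hi => hle (hl.core'.hb i hi), hl.pinj,
      fun i hi => hle (hl.core'.h1 i hi), fun i hi => hle (hl.core'.h2 i hi)⟩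
  obtain ⟨B, hB, hwin⟩ := windows hg hcore
  refine ⟨B, hB, ?_⟩
  intro i hi hiK hiB
  obtain ⟨g', hgg, hg', him, hmono⟩ := hwin (i - 19) 40 (by omega) (by omega)
    (fun j h1 h2 => hiB j (by omega) (by omega))
  have key : ∃ ρ, Rects H g' a b (κ i) M ρ := by
    rcases hmono with hmono | hmono
    · refine good_aux hl hle hg' hi hiK (ε := 1) (Or.inl rfl)
        (fun j h1 h2 => him j (by omega) (by omega)) ?_
      intro s e1 e2
      have e3 : ((i : ℤ) + 1 + 1 * (s + 1)).toNat = ((i : ℤ) + 1 + 1 * s).toNat + 1 := by omega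
      rw [e3]
      exact hmono _ (by omega) (by omega)
    · refine good_aux hl hle hg' hi hiK (ε := -1) (Or.inr rfl)
        (fun j h1 h2 => him j (by omega) (by omega)) ?_
      intro s e1 e2
      have e3 : ((i : ℤ) + 1 + -1 * s).toNat = ((i : ℤ) + 1 + -1 * (s + 1)).toNat + 1 := by omega
      rw [e3]
      exact hmono _ (by omega) (by omega)
  rcases hgg with rfl | rfl
  · exact key
  · obtain ⟨ρ, hρ⟩ := key
    exact hρ.conj

end

end Pool.Agent.Helper82.DG
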