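import Pool.Agent.Helper82.DG.Base

/-!
# The layout of a grid and crossings of two edges which are not crossed otherwise
-/

set_option autoImplicit false

namespace Pool.Agent.Helper82.DG

open Pool.Agent.Helper18.RAC Complex

/-- positions of the vertices of the grid; the crossing point of the diagonals is the origin -/
noncomputable def lay (M : ℕ) : GN → ℂ
  | .P false j => ⟨j + 1, -1⟩
  | .P true j => ⟨-1, j + 1⟩
  | .U false c => ⟨2 * c + 1, 2 * M + 2⟩
  | .U true c => ⟨2 * M + 2, 2 * c + 1⟩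
  | .C false j ε => ⟨j + 3 / 2, cond ε (-3 / 4) (-1 / 2)⟩
  | .C true j ε => ⟨cond ε (-3 / 4) (-1 / 2), j + 3 / 2⟩
  | .Q => ⟨2 * M + 1 / 4, 2 * M + 1 / 4⟩
  | .D c r => ⟨2 * c + 2, 2 * r + 2⟩

/-- positions of the corners and of the vertices of the grid -/
noncomputable def layX (M : ℕ) (n s e w : ℝ) : GX → ℂ
  | .X false => ⟨0, n⟩
  | .X true => ⟨e, 0⟩
  | .Y false => ⟨0, -s⟩
  | .Y true => ⟨-w, 0⟩
  | .v x => lay M x

def GX.ok (M : ℕ) : GX → Prop
  | .v x => x.ok M
  | _ => True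

/-- codes of the two diagonals and of the edges of the grid -/
inductive GF
  | ns
  | ew
  | g (c : GE)

def GF.valid (M : ℕ) : GF → Prop
  | .g c => c.valid M
  | _ => True

def GF.ends (M : ℕ) : GF → GX × GX
  | .ns => (.X false, .Y false)
  | .ew => (.X true, .Y true)
  | .g c => c.ends M

/-- the edges `n s` and `e w` cross each other and no other edge -/
def XCross {V : Type*} (G : SimpleGraph V) (f : V → ℂ) (n s e w : V) : Prop :=
  G.Adj n s ∧ G.Adj e w ∧ s(n, s) ≠ s(e, w) ∧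
    (∃ q, q ∈ openSegment ℝ (f n) (f s) ∧ q ∈ openSegment ℝ (f e) (f w)) ∧
    ∀ x y, G.Adj x y → s(x, y) ≠ s(n, s) → s(x, y) ≠ s(e, w) →
      ∀ z, z ∈ openSegment ℝ (f x) (f y) →
        z ∉ openSegment ℝ (f n) (f s) ∧ z ∉ openSegment ℝ (f e) (f w)

end Pool.Agent.Helper82.DG
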