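import Pool.Agent.Helper82.DG.GoodD
import Pool.Agent.Helper72.DG.CountD
import Pool.Agent.Helper74.DG.Disj

/-!
# The number of edges
-/

set_option autoImplicit false

namespace Pool.Agent.Helper82.DG

open Pool.Agent.Helper18.RAC Complex

variable {V : Type*} {a b : V} {p : ℕ → V} {κ : ℕ → GX → V} {m K M : ℕ}

/-- bad kites -/
theorem card_bad (B : Finset ℕ) (hB : B.card ≤ 10) (K : ℕ) : ∃ Bad : Finset ℕ,
    Bad.card ≤ 450 ∧ ∀ i < K, i ∉ Bad →
      19 ≤ i ∧ i + 20 ≤ K ∧ ∀ j, i ≤ j + 19 → j ≤ i + 21 → j ∉ B := by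
  classical
  refine ⟨(Finset.range 19 ∪ Finset.Ico (K - 19) K) ∪
    B.biUnion (fun j => Finset.Icc (j - 21) (j + 19)), ?_, ?_⟩
  · refine (Finset.card_union_le _ _).trans ?_
    have h1 := Finset.card_union_le (Finset.range 19) (Finset.Ico (K - 19) K)
    rw [Finset.card_range, Nat.card_Ico] at h1
    have h2 : (B.biUnion (fun j => Finset.Icc (j - 21) (j + 19))).card ≤ B.card * 41 :=
      Finset.card_biUnion_le_card_mul _ _ _ fun i _ => by rw [Nat.card_Icc]; omega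
    omega
  · intro i hi hiB
    rw [Finset.mem_union, Finset.mem_union, Finset.mem_range, Finset.mem_Ico,
      Finset.mem_biUnion] at hiB
    push Not at hiB
    obtain ⟨⟨h1, h2⟩, h3⟩ := hiB
    have h4 : i + 20 ≤ K := by
      by_contra hcon
      exact absurd (h2 (by omega)) (by omega)
    refine ⟨h1, h4, ?_⟩
    intro j h5 h6 h7
    apply h3 j h7
    rw [Finset.mem_Icc]
    omega

/-- the vertices which are not good dark vertices -/
theorem LayD.cover (hl : LayD a b p κ m K M) (Bad : Finset ℕ) (hBad : Bad.card ≤ 450) :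
    ∃ Z : Finset V, Z.card ≤ 2 + m + 21 * (K * M) + 450 * M ^ 2 ∧
      ∀ v, v ∈ Z ∨ ∃ i c r, i < K ∧ i ∉ Bad ∧ 1 ≤ c ∧ c + 2 < M ∧ 1 ≤ r ∧ r + 2 < M ∧
        v = κ i (.v (.D c r)) := by
  classical
  have hM := hl.hM
  set Z0 : Finset V := {a, b} with hZ0
  set Z1 : Finset V := (Finset.range m).image p with hZ1
  set Z2 : Finset V := (Finset.range K ×ˢ ((Finset.univ : Finset Bool) ×ˢ
    Finset.range (2 * M))).image (fun x => κ x.1 (.v (.P x.2.1 x.2.2))) with hZ2
  set Z3 : Finset V := (Finset.range K ×ˢ ((Finset.univ : Finset Bool) ×ˢ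
    Finset.range M)).image (fun x => κ x.1 (.v (.U x.2.1 x.2.2))) with hZ3
  set Z4 : Finset V := (Finset.range K ×ˢ ((Finset.univ : Finset (Bool × Bool)) ×ˢ
    Finset.range (2 * M))).image (fun x => κ x.1 (.v (.C x.2.1.1 x.2.2 x.2.1.2))) with hZ4
  set Z5 : Finset V := (Finset.range K).image (fun i => κ i (.v .Q)) with hZ5
  set Z6 : Finset V := (Finset.range K ×ˢ (({0, M - 2, M - 1} : Finset ℕ) ×ˢ
    Finset.range M)).image (fun x => κ x.1 (.v (.D x.2.1 x.2.2))) with hZ6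
  set Z7 : Finset V := (Finset.range K ×ˢ (({0, M - 2, M - 1} : Finset ℕ) ×ˢ
    Finset.range M)).image (fun x => κ x.1 (.v (.D x.2.2 x.2.1))) with hZ7
  set Z8 : Finset V := (Bad ×ˢ (Finset.range M ×ˢ Finset.range M)).image
    (fun x => κ x.1 (.v (.D x.2.1 x.2.2))) with hZ8
  have c0 : Z0.card ≤ 2 := Finset.card_le_two
  have c1 : Z1.card ≤ m := by simpa using Finset.card_image_le (s := Finset.range m) (f := p)
  have c2 : Z2.card ≤ K * (2 * (2 * M)) := by
    refine Finset.card_image_le.trans ?_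
    simp
  have c3 : Z3.card ≤ K * (2 * M) := by
    refine Finset.card_image_le.trans ?_
    simp
  have c4 : Z4.card ≤ K * (4 * (2 * M)) := by
    refine Finset.card_image_le.trans ?_
    simp
  have c5 : Z5.card ≤ K := by
    simpa using Finset.card_image_le (s := Finset.range K) (f := fun i => κ i (.v .Q))
  have c6 : Z6.card ≤ K * (3 * M) := by
    refine Finset.card_image_le.trans ?_
    rw [Finset.card_product, Finset.card_product, Finset.card_range, Finset.card_range]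
    exact Nat.mul_le_mul_left _ (Nat.mul_le_mul_right _ Finset.card_le_three)
  have c7 : Z7.card ≤ K * (3 * M) := by
    refine Finset.card_image_le.trans ?_
    rw [Finset.card_product, Finset.card_product, Finset.card_range, Finset.card_range]
    exact Nat.mul_le_mul_left _ (Nat.mul_le_mul_right _ Finset.card_le_three)
  have c8 : Z8.card ≤ 450 * M ^ 2 := by
    refine Finset.card_image_le.trans ?_
    rw [Finset.card_product, Finset.card_product, Finset.card_range, pow_two]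
    exact Nat.mul_le_mul_right _ hBad
  refine ⟨Z0 ∪ (Z1 ∪ (Z2 ∪ (Z3 ∪ (Z4 ∪ (Z5 ∪ (Z6 ∪ (Z7 ∪ Z8))))))), ?_, ?_⟩
  · have d1 := Finset.card_union_le Z0 (Z1 ∪ (Z2 ∪ (Z3 ∪ (Z4 ∪ (Z5 ∪ (Z6 ∪ (Z7 ∪ Z8)))))))
    have d2 := Finset.card_union_le Z1 (Z2 ∪ (Z3 ∪ (Z4 ∪ (Z5 ∪ (Z6 ∪ (Z7 ∪ Z8))))))
    have d3 := Finset.card_union_le Z2 (Z3 ∪ (Z4 ∪ (Z5 ∪ (Z6 ∪ (Z7 ∪ Z8)))))
    have d4 := Finset.card_union_le Z3 (Z4 ∪ (Z5 ∪ (Z6 ∪ (Z7 ∪ Z8))))
    have d5 := Finset.card_union_le Z4 (Z5 ∪ (Z6 ∪ (Z7 ∪ Z8)))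
    have d6 := Finset.card_union_le Z5 (Z6 ∪ (Z7 ∪ Z8))
    have d7 := Finset.card_union_le Z6 (Z7 ∪ Z8)
    have d8 := Finset.card_union_le Z7 Z8
    have e1 : K * 1 ≤ K * M := Nat.mul_le_mul_left _ (by omega)
    have e2 : K * (2 * (2 * M)) = 4 * (K * M) := by ring
    have e3 : K * (2 * M) = 2 * (K * M) := by ring
    have e4 : K * (4 * (2 * M)) = 8 * (K * M) := by ring
    have e5 : K * (3 * M) = 3 * (K * M) := by ring
    rw [e2] at c2
    rw [e3] at c3
    rw [e4] at c4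
    rw [e5] at c6 c7
    omega
  · intro v
    simp only [Finset.mem_union]
    rcases hl.cov v with h | h | ⟨j, hj, rfl⟩ | ⟨i, hi, x, hx, rfl⟩
    · exact Or.inl (Or.inl (by rw [hZ0, h]; simp))
    · exact Or.inl (Or.inl (by rw [hZ0, h]; simp))
    · exact Or.inl (Or.inr (Or.inl (Finset.mem_image_of_mem _ (Finset.mem_range.2 hj))))
    · have hi' := Finset.mem_range.2 hi
      cases x with
      | P σ j =>
        refine Or.inl (Or.inr (Or.inr (Or.inl ?_)))
        rw [hZ2, Finset.mem_image]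
        refine ⟨(i, σ, j), ?_, rfl⟩
        simp only [Finset.mem_product, Finset.mem_univ, Finset.mem_range, true_and]
        exact ⟨hi, hx⟩
      | U σ j =>
        refine Or.inl (Or.inr (Or.inr (Or.inr (Or.inl ?_))))
        rw [hZ3, Finset.mem_image]
        refine ⟨(i, σ, j), ?_, rfl⟩
        simp only [Finset.mem_product, Finset.mem_univ, Finset.mem_range, true_and]
        exact ⟨hi, hx⟩
      | C σ j ε =>
        refine Or.inl (Or.inr (Or.inr (Or.inr (Or.inr (Or.inl ?_)))))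
        rw [hZ4, Finset.mem_image]
        refine ⟨(i, (σ, ε), j), ?_, rfl⟩
        have hx' : j + 1 < 2 * M := hx
        simp only [Finset.mem_product, Finset.mem_univ, Finset.mem_range, true_and]
        exact ⟨hi, by omega⟩
      | Q =>
        exact Or.inl (Or.inr (Or.inr (Or.inr (Or.inr (Or.inr (Or.inl
          (Finset.mem_image_of_mem (fun i => κ i (.v .Q)) hi')))))))
      | D c r =>
        have hx' : c < M ∧ r < M := hx
        by_cases hib : i ∈ Bad
        · refine Or.inl (Or.inr (Or.inr (Or.inr (Or.inr (Or.inr (Or.inr (Or.inr (Or.inr ?_))))))))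
          rw [hZ8, Finset.mem_image]
          refine ⟨(i, c, r), ?_, rfl⟩
          simp only [Finset.mem_product, Finset.mem_range]
          exact ⟨hib, hx'⟩
        · by_cases hc : 1 ≤ c ∧ c + 2 < M
          · by_cases hr : 1 ≤ r ∧ r + 2 < M
            · exact Or.inr ⟨i, c, r, hi, hib, hc.1, hc.2, hr.1, hr.2, rfl⟩
            · refine Or.inl (Or.inr (Or.inr (Or.inr (Or.inr (Or.inr (Or.inr (Or.inr
                (Or.inl ?_))))))))
              rw [hZ7, Finset.mem_image]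
              refine ⟨(i, r, c), ?_, rfl⟩
              simp only [Finset.mem_product, Finset.mem_range, Finset.mem_insert,
                Finset.mem_singleton]
              exact ⟨hi, by omega, hx'.1⟩
          · refine Or.inl (Or.inr (Or.inr (Or.inr (Or.inr (Or.inr (Or.inr (Or.inl ?_)))))))
            rw [hZ6, Finset.mem_image]
            refine ⟨(i, c, r), ?_, rfl⟩
            simp only [Finset.mem_product, Finset.mem_range, Finset.mem_insert,
              Finset.mem_singleton]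
            exact ⟨hi, by omega, hx'.2⟩

/-- the links -/
theorem links (κ : ℕ → GX → V) (K M : ℕ) : ∃ L : Set (Sym2 V), L.ncard ≤ 2 * (K * M ^ 2) ∧
    ∀ i c r, i < K → c < M → r < M →
      s(κ i (.v (.D c r)), κ i (.v (.D (c + 1) r))) ∈ L ∧
      s(κ i (.v (.D c r)), κ i (.v (.D c (r + 1)))) ∈ L := by
  classical
  set S1 : Finset (Sym2 V) := (Finset.range K ×ˢ (Finset.range M ×ˢ Finset.range M)).image
    (fun x => s(κ x.1 (.v (.D x.2.1 x.2.2)), κ x.1 (.v (.D (x.2.1 + 1) x.2.2)))) with hS1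
  set S2 : Finset (Sym2 V) := (Finset.range K ×ˢ (Finset.range M ×ˢ Finset.range M)).image
    (fun x => s(κ x.1 (.v (.D x.2.1 x.2.2)), κ x.1 (.v (.D x.2.1 (x.2.2 + 1))))) with hS2
  have c1 : S1.card ≤ K * M ^ 2 := by
    refine Finset.card_image_le.trans ?_
    rw [Finset.card_product, Finset.card_product, Finset.card_range, Finset.card_range, pow_two]
  have c2 : S2.card ≤ K * M ^ 2 := by
    refine Finset.card_image_le.trans ?_
    rw [Finset.card_product, Finset.card_product, Finset.card_range, Finset.card_range, pow_two]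
  refine ⟨((S1 ∪ S2 : Finset (Sym2 V)) : Set (Sym2 V)), ?_, ?_⟩
  · rw [Set.ncard_coe_finset]
    have := Finset.card_union_le S1 S2
    omega
  · intro i c r hi hc hr
    have hmem : (i, c, r) ∈ Finset.range K ×ˢ (Finset.range M ×ˢ Finset.range M) := by
      simp only [Finset.mem_product, Finset.mem_range]
      exact ⟨hi, hc, hr⟩
    constructor
    · rw [Finset.mem_coe, Finset.mem_union, hS1]
      exact Or.inl (Finset.mem_image_of_mem (fun x : ℕ × ℕ × ℕ =>
        s(κ x.1 (.v (.D x.2.1 x.2.2)), κ x.1 (.v (.D (x.2.1 + 1) x.2.2)))) hmem)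
    · rw [Finset.mem_coe, Finset.mem_union, hS2]
      exact Or.inr (Finset.mem_image_of_mem (fun x : ℕ × ℕ × ℕ =>
        s(κ x.1 (.v (.D x.2.1 x.2.2)), κ x.1 (.v (.D x.2.1 (x.2.2 + 1))))) hmem)

/-- the corners of the kites -/
theorem LayD.corner (hl : LayD a b p κ m K M) {H : SimpleGraph V}
    (hle : GDt a b p κ m M K ≤ H) {i : ℕ} (hi : i < K) (σ : Bool) :
    CoreH H a b (κ i (.X σ)) ∧ CoreH H a b (κ i (.Y σ)) := by
  have hm := hl.hm
  have hp : ∀ j < m, CoreH H a b (p j) := fun j hj =>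
    Or.inr (Or.inr ⟨(hle (hl.core'.ha j hj)).symm, (hle (hl.core'.hb j hj)).symm⟩)
  cases σ
  · constructor
    · rw [hl.kN i hi]
      split_ifs
      · exact Or.inr (Or.inl rfl)
      · exact Or.inl rfl
    · rw [hl.kS i hi]
      exact hp _ (by omega)
  · constructor
    · rw [hl.kE i hi]
      exact hp _ (by omega)
    · rw [hl.kW i hi]
      exact hp _ (by omega)

/-- a path vertex which is a corner -/
theorem LayD.cor_p (hl : LayD a b p κ m K M) {i j : ℕ} (hi : i < K) (hj : j < m)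
    (h : Cor (κ i) (p j)) : i ≤ j ∧ j ≤ i + 2 := by
  have hm := hl.hm
  rcases h with h | h | h | h
  · exfalso
    rw [hl.kN i hi] at h
    split_ifs at h
    · exact hl.pb j hj h
    · exact hl.pa j hj h
  · rw [hl.kE i hi] at h
    have := hl.pinj j hj (i + 2) (by omega) h
    omega
  · rw [hl.kS i hi] at h
    have := hl.pinj j hj (i + 1) (by omega) h
    omega
  · rw [hl.kW i hi] at h
    have := hl.pinj j hj i (by omega) h
    omega

/-- a hub which is a corner -/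
theorem LayD.cor_hub (hl : LayD a b p κ m K M) {i j : ℕ} (hi : i < K)
    (h : Cor (κ i) (if j % 2 = 0 then b else a)) : i % 2 = j % 2 := by
  have hm := hl.hm
  have key : ∀ k < m, (if j % 2 = 0 then b else a) ≠ p k := by
    intro k hk h1
    split_ifs at h1
    · exact hl.pb k hk h1.symm
    · exact hl.pa k hk h1.symm
  rcases h with h | h | h | h
  · rw [hl.kN i hi] at h
    by_cases h1 : j % 2 = 0
    · rw [if_pos h1] at h
      by_cases h2 : i % 2 = 0
      · omega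
      · rw [if_neg h2] at h
        exact absurd h.symm hl.ab
    · rw [if_neg h1] at h
      by_cases h2 : i % 2 = 0
      · rw [if_pos h2] at h
        exact absurd h hl.ab
      · omega
  · rw [hl.kE i hi] at h
    exact absurd h (key _ (by omega))
  · rw [hl.kS i hi] at h
    exact absurd h (key _ (by omega))
  · rw [hl.kW i hi] at h
    exact absurd h (key _ (by omega))

theorem LayD.cor_ne (hl : LayD a b p κ m K M) {i j : ℕ} (hi : i < K) (hj : j < K) (hij : i ≠ j)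
    (σ : Bool) : ¬ (Cor (κ i) (κ j (.X σ)) ∧ Cor (κ i) (κ j (.Y σ))) := by
  have hm := hl.hm
  rintro ⟨h1, h2⟩
  cases σ
  · rw [hl.kN j hj] at h1
    rw [hl.kS j hj] at h2
    have e1 := hl.cor_hub hi h1
    have e2 := hl.cor_p hi (by omega) h2
    omega
  · rw [hl.kE j hj] at h1
    rw [hl.kW j hj] at h2
    have e1 := hl.cor_p hi (by omega) h1
    have e2 := hl.cor_p hi (by omega) h2
    omega

theorem LayD.edges [Finite V] (hl : LayD a b p κ m K M) {H : SimpleGraph V}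
    (hle : GDt a b p κ m M K ≤ H) (hH : ∃ f : V → ℂ, IsRAC H f) :
    H.edgeSet.ncard ≤ 2 * (K * M ^ 2) + 7 * (2 + m + 21 * (K * M) + 450 * M ^ 2) := by
  classical
  obtain ⟨f, hf⟩ := hH
  obtain ⟨g, hg1, hg2, hg3⟩ := hf.normalize hl.ab
  have hN : Nm H g a b := ⟨hg1, hg2, hg3, hle (hl.code_adj (c := .ab) trivial)⟩
  obtain ⟨B, hB, hgood⟩ := good_rects' hl hle hN
  obtain ⟨Bad, hBad, hBad'⟩ := card_bad B hB K
  obtain ⟨Z, hZ, hcov⟩ := hl.cover Bad hBad
  obtain ⟨L, hL, hlink⟩ := links κ K M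
  have hex : ∀ i, ∃ ρ, i < K → i ∉ Bad → Rects H g a b (κ i) M ρ := by
    intro i
    by_cases h1 : i < K ∧ i ∉ Bad
    · obtain ⟨h2, h3, h4⟩ := hBad' i h1.1 h1.2
      obtain ⟨ρ, hρ⟩ := hgood i h2 h3 h4
      exact ⟨ρ, fun _ _ => hρ⟩
    · exact ⟨fun _ _ => ∅, fun h2 h3 => absurd ⟨h2, h3⟩ h1⟩
  choose ρ hρ using hex
  -- the good dark vertices
  set J : Finset (ℕ × ℕ × ℕ) := ((Finset.range K).filter (fun i => i ∉ Bad)) ×ˢ
    (Finset.Ico 1 (M - 2) ×ˢ Finset.Ico 1 (M - 2)) with hJ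
  have hmemJ : ∀ i c r, (i, c, r) ∈ J ↔ (i < K ∧ i ∉ Bad) ∧ (1 ≤ c ∧ c + 2 < M) ∧
      (1 ≤ r ∧ r + 2 < M) := by
    intro i c r
    rw [hJ]
    simp only [Finset.mem_product, Finset.mem_filter, Finset.mem_range, Finset.mem_Ico]
    constructor
    · rintro ⟨h1, h2, h3⟩
      exact ⟨h1, ⟨h2.1, by omega⟩, ⟨h3.1, by omega⟩⟩
    · rintro ⟨h1, h2, h3⟩
      exact ⟨h1, ⟨h2.1, by omega⟩, ⟨h3.1, by omega⟩⟩
  set Dk : Finset V := J.image (fun x => κ x.1 (.v (.D x.2.1 x.2.2))) with hDk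
  have hmemD : ∀ v, v ∈ Dk ↔ ∃ i c r, ((i < K ∧ i ∉ Bad) ∧ (1 ≤ c ∧ c + 2 < M) ∧
      (1 ≤ r ∧ r + 2 < M)) ∧ v = κ i (.v (.D c r)) := by
    intro v
    rw [hDk, Finset.mem_image]
    constructor
    · rintro ⟨⟨i, c, r⟩, h1, h2⟩
      exact ⟨i, c, r, (hmemJ i c r).1 h1, h2.symm⟩
    · rintro ⟨i, c, r, h1, h2⟩
      exact ⟨(i, c, r), (hmemJ i c r).2 h1, h2.symm⟩
  set R : V → Set ℂ := fun v => {z | ∃ i c r, ((i < K ∧ i ∉ Bad) ∧ (1 ≤ c ∧ c + 2 < M) ∧
      (1 ≤ r ∧ r + 2 < M)) ∧ v = κ i (.v (.D c r)) ∧ z ∈ ρ i c r} with hR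
  have key := count_le hg1 Dk Z (fun v => by
    rcases hcov v with h1 | ⟨i, c, r, h1, h2, h3, h4, h5, h6, h7⟩
    · exact Or.inr h1
    · left
      rw [hmemD]
      exact ⟨i, c, r, ⟨⟨h1, h2⟩, ⟨h3, h4⟩, ⟨h5, h6⟩⟩, h7⟩) L R ?_ ?_ ?_
  · omega
  · intro x hx
    obtain ⟨i, c, r, ⟨⟨h1, h2⟩, ⟨h3, h4⟩, ⟨h5, h6⟩⟩, rfl⟩ := (hmemD x).1 hx
    exact ⟨i, c, r, ⟨⟨h1, h2⟩, ⟨h3, h4⟩, ⟨h5, h6⟩⟩, rfl,
      (hρ i h1 h2).mem c r (by omega) (by omega)⟩
  · intro x hx v hv
    obtain ⟨i, c, r, ⟨⟨h1, h2⟩, ⟨h3, h4⟩, ⟨h5, h6⟩⟩, rfl⟩ := (hmemD x).1 hx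
    rcases (hρ i h1 h2).nbr c r v h3 h4 h5 h6 hv with h | h | h | h | h
    · left
      rw [h]
      exact (hlink i c r h1 (by omega) (by omega)).1
    · left
      rw [h, Sym2.eq_swap]
      have := (hlink i (c - 1) r h1 (by omega) (by omega)).1
      rwa [Nat.sub_add_cancel h3] at this
    · left
      rw [h]
      exact (hlink i c r h1 (by omega) (by omega)).2
    · left
      rw [h, Sym2.eq_swap]
      have := (hlink i c (r - 1) h1 (by omega) (by omega)).2
      rwa [Nat.sub_add_cancel h5] at this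
    · right
      exact ⟨i, c, r, ⟨⟨h1, h2⟩, ⟨h3, h4⟩, ⟨h5, h6⟩⟩, rfl, h⟩
  · intro x hx y hy hxy
    rw [Set.disjoint_left]
    rintro z ⟨i, c, r, ⟨⟨h1, h2⟩, ⟨h3, h4⟩, ⟨h5, h6⟩⟩, rfl, hz⟩
      ⟨i', c', r', ⟨⟨h1', h2'⟩, ⟨h3', h4'⟩, ⟨h5', h6'⟩⟩, rfl, hz'⟩
    by_cases hii : i = i'
    · subst hii
      have hcr : c ≠ c' ∨ r ≠ r' := by
        by_contra hcon
        push Not at hcon
        apply hxy
        rw [hcon.1, hcon.2]
      exact Set.disjoint_left.1 ((hρ i h1 h2).dj c r c' r' (by omega) (by omega) (by omega)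
        (by omega) hcr) hz hz'
    · exact Set.disjoint_left.1 (rects_disj hg1 (hρ i h1 h2) (hρ i' h1' h2')
        ((hl.grid' i h1).mono hle) ((hl.grid' i' h1').mono hle)
        (fun x y hx hy h => hii (hl.kinj i h1 i' h1' x y hx hy h).1)
        (fun σ => hl.corner hle h1 σ) (fun σ => hl.corner hle h1' σ)
        (fun σ => hl.cor_ne h1 h1' hii σ) (fun σ => hl.cor_ne h1' h1 (Ne.symm hii) σ)
        h4 h6 h4' h6') hz hz'

end Pool.Agent.Helper82.DG
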