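import Pool.Agent.Helper18.RAC.MkR
import Pool.Agent.Helper18.RAC.Main

/-!
# Dark grids: names, edges and the local data

A grid of order `M` is attached to the four corners of a kite with crossing diagonals.  Corners:
`X false` (top), `Y false` (bottom), `X true` (right), `Y true` (left); the diagonals are
`X false - Y false` and `X true - Y true`.
-/

set_option autoImplicit false

namespace Pool.Agent.Helper82.DG

open Pool.Agent.Helper18.RAC

/-- names of the vertices of a grid -/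
inductive GN
  | P (σ : Bool) (j : ℕ)
  | U (σ : Bool) (c : ℕ)
  | C (σ : Bool) (j : ℕ) (ε : Bool)
  | Q
  | D (c r : ℕ)
  deriving DecidableEq

/-- the names which are used in a grid of order `M` -/
def GN.ok (M : ℕ) : GN → Prop
  | .P _ j => j < 2 * M
  | .U _ c => c < M
  | .C _ j _ => j + 1 < 2 * M
  | .Q => True
  | .D c r => c < M ∧ r < M

/-- the dark vertices with the two indices exchanged if `σ = true` -/
def GN.D' (σ : Bool) (c r : ℕ) : GN := cond σ (.D r c) (.D c r)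

/-- corners and names -/
inductive GX
  | X (σ : Bool)
  | Y (σ : Bool)
  | v (x : GN)
  deriving DecidableEq

/-- codes of the edges of a grid -/
inductive GE
  | yp (σ : Bool) (j : ℕ)
  | xu (σ : Bool) (c : ℕ)
  | xp (σ : Bool)
  | up (σ : Bool) (c : ℕ)
  | pd (σ : Bool) (c : ℕ)
  | dd (σ : Bool) (c r : ℕ)
  | pp (σ : Bool) (j : ℕ)
  | pc (σ : Bool) (j : ℕ) (ε : Bool)
  | pc' (σ : Bool) (j : ℕ) (ε : Bool)
  | cc (σ : Bool) (j : ℕ)
  | uu
  | uq (σ : Bool)
  | ud (σ : Bool)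
  | qd
  deriving DecidableEq

/-- valid codes -/
def GE.valid (M : ℕ) : GE → Prop
  | .yp _ j => j < 2 * M
  | .xu _ c => c < M
  | .xp _ => True
  | .up _ c => c < M
  | .pd _ c => c < M
  | .dd _ c r => c < M ∧ r + 1 < M
  | .pp _ j => j + 1 < 2 * M
  | .pc _ j _ => j + 1 < 2 * M
  | .pc' _ j _ => j + 1 < 2 * M
  | .cc _ j => j + 1 < 2 * M
  | .uu => True
  | .uq _ => True
  | .ud _ => True
  | .qd => True

/-- the ends of the edges -/
def GE.ends (M : ℕ) : GE → GX × GX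
  | .yp σ j => (.Y σ, .v (.P σ j))
  | .xu σ c => (.X σ, .v (.U σ c))
  | .xp σ => (.X (!σ), .v (.P σ (2 * M - 1)))
  | .up σ c => (.v (.U σ c), .v (.P σ (2 * c)))
  | .pd σ c => (.v (.P σ (2 * c + 1)), .v (.D' σ c 0))
  | .dd σ c r => (.v (.D' σ c r), .v (.D' σ c (r + 1)))
  | .pp σ j => (.v (.P σ j), .v (.P σ (j + 1)))
  | .pc σ j ε => (.v (.P σ j), .v (.C σ j ε))
  | .pc' σ j ε => (.v (.P σ (j + 1)), .v (.C σ j ε))
  | .cc σ j => (.v (.C σ j false), .v (.C σ j true))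
  | .uu => (.v (.U false (M - 1)), .v (.U true (M - 1)))
  | .uq σ => (.v (.U σ (M - 1)), .v .Q)
  | .ud σ => (.v (.U σ (M - 1)), .v (.D (M - 1) (M - 1)))
  | .qd => (.v .Q, .v (.D (M - 1) (M - 1)))

variable {V : Type*}

/-- the edges of the grid whose corners and vertices are given by `κ` -/
def gridE (κ : GX → V) (M : ℕ) : Set (Sym2 V) :=
  {e | ∃ c : GE, c.valid M ∧ e = s(κ (c.ends M).1, κ (c.ends M).2)}

/-- the graph `G` contains the grid `κ` -/
structure HasGrid (G : SimpleGraph V) (κ : GX → V) (M : ℕ) : Prop where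
  hM : 5 ≤ M
  adj : ∀ c : GE, c.valid M → G.Adj (κ (c.ends M).1) (κ (c.ends M).2)
  inj : ∀ x y : GN, x.ok M → y.ok M → κ (.v x) = κ (.v y) → x = y
  nX : ∀ (x : GN) (σ : Bool), x.ok M → κ (.v x) ≠ κ (.X σ)
  nY : ∀ (x : GN) (σ : Bool), x.ok M → κ (.v x) ≠ κ (.Y σ)

/-- exchange of the two axes -/
def GN.swap : GN → GN
  | .P σ j => .P (!σ) j
  | .U σ c => .U (!σ) c
  | .C σ j ε => .C (!σ) j ε
  | .Q => .Q
  | .D c r => .D r c

/-- exchange of the two axes -/
def GX.swap : GX → GX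
  | .X σ => .X (!σ)
  | .Y σ => .Y (!σ)
  | .v x => .v x.swap

/-- exchange of the two axes -/
def GE.swap : GE → GE
  | .yp σ j => .yp (!σ) j
  | .xu σ c => .xu (!σ) c
  | .xp σ => .xp (!σ)
  | .up σ c => .up (!σ) c
  | .pd σ c => .pd (!σ) c
  | .dd σ c r => .dd (!σ) c r
  | .pp σ j => .pp (!σ) j
  | .pc σ j ε => .pc (!σ) j ε
  | .pc' σ j ε => .pc' (!σ) j ε
  | .cc σ j => .cc (!σ) j
  | .uu => .uu
  | .uq σ => .uq (!σ)
  | .ud σ => .ud (!σ)
  | .qd => .qd

theorem GN.swap_swap (x : GN) : x.swap.swap = x := by cases x <;> simp [GN.swap]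

theorem GX.swap_swap (x : GX) : x.swap.swap = x := by
  cases x <;> simp [GX.swap, GN.swap_swap]

theorem GE.swap_swap (x : GE) : x.swap.swap = x := by cases x <;> simp [GE.swap]

theorem GN.ok_swap {M : ℕ} {x : GN} : x.swap.ok M ↔ x.ok M := by
  cases x <;> simp [GN.swap, GN.ok, and_comm]

theorem GE.valid_swap {M : ℕ} {x : GE} : x.swap.valid M ↔ x.valid M := by
  cases x <;> simp [GE.swap, GE.valid]

theorem GN.swap_D' (σ : Bool) (c r : ℕ) : (GN.D' σ c r).swap = GN.D' (!σ) c r := by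
  cases σ <;> rfl

/-- the ends of the exchanged code, up to the order of the ends -/
theorem GE.ends_swap (M : ℕ) (c : GE) :
    s((c.swap.ends M).1, (c.swap.ends M).2) = s((c.ends M).1.swap, (c.ends M).2.swap) := by
  cases c with
  | pd σ c => cases σ <;> rfl
  | dd σ c r => cases σ <;> rfl
  | uu => exact Sym2.eq_swap
  | _ => rfl

theorem HasGrid.swap {G : SimpleGraph V} {κ : GX → V} {M : ℕ} (h : HasGrid G κ M) :
    HasGrid G (fun x => κ x.swap) M where
  hM := h.hM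
  adj := by
    intro c hc
    have h1 := h.adj c.swap (GE.valid_swap.2 hc)
    have h2 : s(κ (c.swap.ends M).1, κ (c.swap.ends M).2) =
        s(κ (c.ends M).1.swap, κ (c.ends M).2.swap) := by
      have := congrArg (Sym2.map κ) (GE.ends_swap M c)
      simpa using this
    rw [← SimpleGraph.mem_edgeSet] at h1 ⊢
    rwa [h2] at h1
  inj := by
    intro x y hx hy hxy
    have := h.inj x.swap y.swap (GN.ok_swap.2 hx) (GN.ok_swap.2 hy) hxy
    rw [← GN.swap_swap x, this, GN.swap_swap]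
  nX := fun x σ hx => h.nX x.swap (!σ) (GN.ok_swap.2 hx)
  nY := fun x σ hx => h.nY x.swap (!σ) (GN.ok_swap.2 hx)

theorem HasGrid.mono {G H : SimpleGraph V} {κ : GX → V} {M : ℕ} (h : HasGrid G κ M)
    (hle : G ≤ H) : HasGrid H κ M :=
  ⟨h.hM, fun c hc => hle (h.adj c hc), h.inj, h.nX, h.nY⟩

/-- the four cells at the crossing point of the diagonals in adapted coordinates, see `KN` -/
def NE (X Y : V → ℝ) (v : V) : Prop := 0 < X v ∧ 0 < Y v ∧ X v + Y v < 1

def SE (X Y : V → ℝ) (b : ℝ) (v : V) : Prop := 0 < X v ∧ Y v < 0 ∧ b * X v - Y v < b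

def NW (X Y : V → ℝ) (a : ℝ) (v : V) : Prop := 0 < Y v ∧ X v < 0 ∧ a * Y v - X v < a

def SW (X Y : V → ℝ) (a b : ℝ) (v : V) : Prop :=
  X v < 0 ∧ Y v < 0 ∧ -(b * X v) - a * Y v < a * b

/-- the drawing of a grid near a kite in adapted coordinates: the frame of the grid lies in the
cells of the kite -/
structure GDraw (H : SimpleGraph V) (X Y : V → ℝ) (E F a b : ℝ) (κ : GX → V) (M : ℕ) : Prop where
  hd : ADraw H X Y E F
  hk : KN H X Y a b (κ (.X true)) (κ (.Y true)) (κ (.X false)) (κ (.Y false))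
  hs : H.Adj (κ (.Y true)) (κ (.Y false))
  hg : HasGrid H κ M
  hU : ∀ σ c, c < M → NE X Y (κ (.v (.U σ c)))
  hP0 : ∀ j, j < 2 * M → SE X Y b (κ (.v (.P false j)))
  hC0 : ∀ j ε, j + 1 < 2 * M → SE X Y b (κ (.v (.C false j ε)))
  hP1 : ∀ j, j < 2 * M → NW X Y a (κ (.v (.P true j)))
  hC1 : ∀ j ε, j + 1 < 2 * M → NW X Y a (κ (.v (.C true j ε)))
  hDD : NE X Y (κ (.v (.D (M - 1) (M - 1))))

theorem GDraw.swap {H : SimpleGraph V} {X Y : V → ℝ} {E F a b : ℝ} {κ : GX → V} {M : ℕ}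
    (h : GDraw H X Y E F a b κ M) : GDraw H Y X F E b a (fun x => κ x.swap) M where
  hd := h.hd.swap
  hk := h.hk.swap
  hs := h.hs.symm
  hg := h.hg.swap
  hU := fun σ c hc => by
    obtain ⟨h1, h2, h3⟩ := h.hU (!σ) c hc
    rw [add_comm] at h3
    exact ⟨h2, h1, h3⟩
  hP0 := fun j hj => by
    obtain ⟨h1, h2, h3⟩ := h.hP1 j hj
    exact ⟨h1, h2, h3⟩
  hC0 := fun j ε hj => by
    obtain ⟨h1, h2, h3⟩ := h.hC1 j ε hj
    exact ⟨h1, h2, h3⟩
  hP1 := fun j hj => by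
    obtain ⟨h1, h2, h3⟩ := h.hP0 j hj
    exact ⟨h1, h2, h3⟩
  hC1 := fun j ε hj => by
    obtain ⟨h1, h2, h3⟩ := h.hC0 j ε hj
    exact ⟨h1, h2, h3⟩
  hDD := by
    obtain ⟨h1, h2, h3⟩ := h.hDD
    rw [add_comm] at h3
    exact ⟨h2, h1, h3⟩

end Pool.Agent.Helper82.DG
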