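import Pool.Agent.Helper82.DG.EdgesD
import Pool.Agent.Helper49.DG.LayExists
import Pool.Agent.Helper59.DG.Draw

/-!
# The main theorem
-/

set_option autoImplicit false

namespace Pool.Agent.Helper82.DG

open Pool.Agent.Helper18.RAC Complex

theorem exists_cube (n : ℕ) : ∃ M : ℕ, M ^ 3 ≤ n ∧ n < (M + 1) ^ 3 := by
  classical
  refine ⟨Nat.findGreatest (fun M => M ^ 3 ≤ n) n, ?_, ?_⟩
  · exact Nat.findGreatest_spec (P := fun M => M ^ 3 ≤ n) (m := 0) (by omega) (by simp)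
  · by_contra hcon
    push Not at hcon
    have h1 : Nat.findGreatest (fun M => M ^ 3 ≤ n) n + 1 ≤ n := by
      refine le_trans ?_ hcon
      exact Nat.le_self_pow (by norm_num) _
    exact Nat.findGreatest_is_greatest (P := fun M => M ^ 3 ≤ n) (Nat.lt_succ_self _) h1 hcon

/-- the parameters -/
theorem exists_pars {n M : ℕ} (hM : 5 ≤ M) (h1 : M ^ 3 ≤ n) (h2 : n < (M + 1) ^ 3) :
    ∃ m K : ℕ, K + 2 ≤ m ∧ 2 + m + K * (M ^ 2 + 14 * M - 3) = n ∧ K ≤ M ∧
      m ≤ M ^ 2 + 15 * M + 2 := by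
  obtain ⟨A, hA⟩ : ∃ A, A + 3 = M ^ 2 + 14 * M := ⟨M ^ 2 + 14 * M - 3, by omega⟩
  have hA' : M ^ 2 + 14 * M - 3 = A := by omega
  rw [hA']
  have hn : 125 ≤ n := by
    have : 5 ^ 3 ≤ M ^ 3 := Nat.pow_le_pow_left hM 3
    omega
  obtain ⟨K, hK⟩ : ∃ K, K = (n - 4) / (A + 1) := ⟨_, rfl⟩
  have k1 : K * (A + 1) ≤ n - 4 := by rw [hK]; exact Nat.div_mul_le_self _ _
  have k2 : n - 4 < (K + 1) * (A + 1) := by
    rw [hK]
    have := Nat.lt_mul_div_succ (n - 4) (show 0 < A + 1 by omega)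
    rw [mul_comm] at this
    exact this
  have k3 : K * (A + 1) = K * A + K := by ring
  have k4 : (K + 1) * (A + 1) = K * A + K + A + 1 := by ring
  have k5 : K ≤ M := by
    by_contra hcon
    push Not at hcon
    have e1 : (M + 1) * (A + 1) ≤ K * (A + 1) := Nat.mul_le_mul_right _ hcon
    have e2 : (M + 1) ^ 3 = (M + 1) * (M ^ 2 + 2 * M + 1) := by ring
    have e3 : (M + 1) * (M ^ 2 + 2 * M + 1) ≤ (M + 1) * (A + 1) :=
      Nat.mul_le_mul_left _ (by omega)
    omega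
  refine ⟨n - 2 - K * A, K, by omega, by omega, k5, ?_⟩
  omega

theorem pow_two_thirds {n M : ℕ} (h : M ^ 3 ≤ n) : ((M : ℝ)) ^ 2 ≤ (n : ℝ) ^ (2 / 3 : ℝ) := by
  have h1 : ((M : ℝ) ^ 3) ≤ (n : ℝ) := by exact_mod_cast h
  have h2 : ((M : ℝ) ^ 3) ^ (2 / 3 : ℝ) ≤ (n : ℝ) ^ (2 / 3 : ℝ) :=
    Real.rpow_le_rpow (by positivity) h1 (by norm_num)
  refine le_trans (le_of_eq ?_) h2
  rw [← Real.rpow_natCast (M : ℝ) 3, ← Real.rpow_mul (Nat.cast_nonneg M)]
  norm_num

/-- **Maximal straight-line RAC graphs with `2 n + O(n^(2/3))` edges.** -/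
theorem exists_dark' (n : ℕ) : ∃ H : SimpleGraph (Fin n), MaxRAC H ∧
    (H.edgeSet.ncard : ℝ) ≤ 2 * n + 10000 * (n : ℝ) ^ (2 / 3 : ℝ) := by
  classical
  rcases Nat.lt_or_ge n 125 with hn | hn
  · have hrac : ∃ f : Fin n → ℂ, IsRAC (⊥ : SimpleGraph (Fin n)) f := by
      refine ⟨fun i => ((i : ℕ) : ℂ), ?_, ?_, ?_⟩
      · intro i j hij
        simpa [Fin.ext_iff] using hij
      · intro u v w huv
        exact absurd huv (by simp)
      · intro u v x y huv
        exact absurd huv (by simp)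
    obtain ⟨H, -, hH⟩ := exists_max hrac
    refine ⟨H, hH, ?_⟩
    have h1 : H.edgeSet.ncard ≤ (Finset.univ : Finset (Sym2 (Fin n))).card := by
      rw [← Set.ncard_coe_finset]
      exact Set.ncard_le_ncard (fun e _ => by simp) (Set.toFinite _)
    rw [Finset.card_univ, Sym2.card, Fintype.card_fin] at h1
    rcases Nat.eq_zero_or_pos n with h0 | h0
    · subst h0
      have h2 : (0 + 1).choose 2 = 0 := rfl
      have h3 : H.edgeSet.ncard = 0 := by omega
      rw [h3]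
      simp
    · have h2 : (n + 1).choose 2 ≤ (124 + 1).choose 2 := Nat.choose_le_choose 2 (by omega)
      have h3 : (124 + 1).choose 2 = 7750 := by rw [Nat.choose_two_right]
      have h4 : (H.edgeSet.ncard : ℝ) ≤ 7750 := by
        have : H.edgeSet.ncard ≤ 7750 := by omega
        exact_mod_cast this
      have h5 : (1 : ℝ) ≤ (n : ℝ) ^ (2 / 3 : ℝ) := by
        have := pow_two_thirds (n := n) (M := 1) (by omega)
        simpa using this
      have h6 : (0 : ℝ) ≤ n := Nat.cast_nonneg n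
      linarith
  · obtain ⟨M, hM1, hM2⟩ := exists_cube n
    have hM : 5 ≤ M := by
      by_contra hcon
      push Not at hcon
      have : (M + 1) ^ 3 ≤ 5 ^ 3 := Nat.pow_le_pow_left (by omega) 3
      omega
    obtain ⟨m, K, e1, e2, e3, e4⟩ := exists_pars hM hM1 hM2
    obtain ⟨a, b, p, κ, hl⟩ := exists_layD e1 hM e2
    obtain ⟨H, hle, hmax⟩ := exists_max hl.rac
    refine ⟨H, hmax, ?_⟩
    have h1 := hl.edges hle hmax.1
    have h2 : H.edgeSet.ncard ≤ 2 * n + 10000 * M ^ 2 := by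
      have d1 : K * M ^ 2 ≤ n := by
        have : K * M ^ 2 ≤ K * (M ^ 2 + 14 * M - 3) := Nat.mul_le_mul_left _ (by omega)
        omega
      have d2 : K * M ≤ M ^ 2 := by
        rw [pow_two]
        exact Nat.mul_le_mul_right _ e3
      have d3 : 5 * M ≤ M ^ 2 := by
        rw [pow_two]
        exact Nat.mul_le_mul_right _ hM
      omega
    have h3 : (H.edgeSet.ncard : ℝ) ≤ 2 * n + 10000 * (M : ℝ) ^ 2 := by exact_mod_cast h2
    have h4 := pow_two_thirds hM1
    linarith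

end Pool.Agent.Helper82.DG
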